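import Pool.Agent.Helper68.SG.Ctx

/-! Part B5: the counters in `v`. -/

set_option autoImplicit false

namespace Pool.Agent.Helper76.SG

open Pool.Agent.Helper68.SG

section aux

variable (p : Par) (tau : ℕ → ℕ → ℕ → ℕ) (i st e : ℕ)

/-- an event at `b` -/
def Ev (b : ℕ) : Prop := p.len i ∣ b ∧ tau i st b = e

open Classical in
/-- number of events in `[a, a + j)` -/
noncomputable def nev (a j : ℕ) : ℕ := ((Finset.range j).filter (fun t => Ev p tau i st e (a + t))).card

open Classical in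
theorem cnt_succ (a : ℕ) :
    cnt p tau i st e (a + 1) = cnt p tau i st e a + if Ev p tau i st e a then 1 else 0 := by
  unfold cnt Ev
  rw [Finset.range_add_one, Finset.filter_insert]
  by_cases h1 : p.len i ∣ a ∧ tau i st a = e
  · rw [if_pos h1, if_pos h1, Finset.card_insert_of_notMem (by simp)]
  · rw [if_neg h1, if_neg h1, add_zero]

open Classical in
theorem nev_succ (a j : ℕ) :
    nev p tau i st e a (j + 1) = nev p tau i st e a j + if Ev p tau i st e (a + j) then 1 else 0 := by
  unfold nev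
  rw [Finset.range_add_one, Finset.filter_insert]
  by_cases h1 : Ev p tau i st e (a + j)
  · rw [if_pos h1, if_pos h1, Finset.card_insert_of_notMem (by simp)]
  · rw [if_neg h1, if_neg h1, add_zero]

theorem cnt_add (a j : ℕ) : cnt p tau i st e (a + j) = cnt p tau i st e a + nev p tau i st e a j := by
  classical
  induction j with
  | zero => simp [nev]
  | succ j ih => rw [← add_assoc, cnt_succ, ih, nev_succ, add_assoc]

theorem nev_congr {a b j : ℕ} (h : ∀ t < j, Ev p tau i st e (a + t) ↔ Ev p tau i st e (b + t)) :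
    nev p tau i st e a j = nev p tau i st e b j := by
  classical
  unfold nev
  congr 1
  apply Finset.filter_congr
  intro t ht
  exact h t (Finset.mem_range.1 ht)

theorem nev_zero {a j : ℕ} (h : ∀ t < j, ¬ Ev p tau i st e (a + t)) :
    nev p tau i st e a j = 0 := by
  classical
  unfold nev
  rw [Finset.card_eq_zero, Finset.filter_eq_empty_iff]
  intro t ht
  exact h t (Finset.mem_range.1 ht)

theorem nev_one {a j t : ℕ} (ht : t < j) (h1 : Ev p tau i st e (a + t))
    (h : ∀ t' < j, Ev p tau i st e (a + t') → t' = t) :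
    nev p tau i st e a j = 1 := by
  classical
  unfold nev
  rw [Finset.card_eq_one]
  refine ⟨t, ?_⟩
  ext t'
  simp only [Finset.mem_filter, Finset.mem_range, Finset.mem_singleton]
  constructor
  · rintro ⟨h2, h3⟩; exact h t' h2 h3
  · rintro rfl; exact ⟨ht, h1⟩

end aux

theorem len_dvd_P {p : Par} (hp : p.Ok) (i : ℕ) : p.len i ∣ p.P i :=
  (pow_dvd_pow p.r (Nat.le_succ i)).trans (hp.len_succ_dvd i)

theorem wid_le_Lam {p : Par} (hp : p.Ok) (i : ℕ) : p.wid i ≤ Lam p i := by
  unfold Par.wid Lam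
  split_ifs with h
  · exact le_rfl
  · have := hp.n_pos
    have h1 : 2 * p.r ^ i ≤ (16 * p.n) * p.r ^ i := Nat.mul_le_mul_right _ (by omega)
    exact h1

theorem nLam_le_Rm {p : Par} (hp : p.Ok) {i : ℕ} (hi : i ≠ 0) : p.n * Lam p i ≤ Rm p i := by
  unfold Rm Lam
  rw [if_neg hi]
  have h1 := hp.nu_ge i
  have h0 := hp.n_pos
  have hr := hp.r_ge
  have h2 : p.r ^ i ≤ p.r ^ (i + 1) := Nat.pow_le_pow_right (by omega) (Nat.le_succ i)
  have h3 : p.n * (16 * p.n * p.r ^ i) ≤ 32 * p.n ^ 2 * p.r ^ (i + 1) := by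
    calc p.n * (16 * p.n * p.r ^ i) = 16 * p.n ^ 2 * p.r ^ i := by ring
      _ ≤ 32 * p.n ^ 2 * p.r ^ (i + 1) := Nat.mul_le_mul (Nat.mul_le_mul_right _ (by norm_num)) h2
  omega

theorem nu_pos {p : Par} (hp : p.Ok) (i : ℕ) : 0 < p.nu i := by
  have h1 := hp.nu_ge i
  have h0 := hp.n_pos
  have hr := hp.r_ge
  have : 0 < 32 * p.n ^ 2 * p.r ^ (i + 1) := by
    have : 0 < p.r := by omega
    positivity
  omega

theorem P_pos (p : Par) (i : ℕ) : 0 < p.P i := by unfold Par.P; positivity

/-- there is an element of `[a, a + L)` divisible by `L` -/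
theorem exists_mult {L : ℕ} (hL : 0 < L) (a : ℕ) : ∃ j < L, L ∣ a + j := by
  refine ⟨(L - a % L) % L, Nat.mod_lt _ hL, ?_⟩
  rw [Nat.dvd_iff_mod_eq_zero, Nat.add_mod, Nat.mod_mod]
  have h1 := Nat.mod_lt a hL
  rcases Nat.eq_zero_or_pos (a % L) with h0 | h0
  · rw [h0]; simp
  · rw [Nat.mod_eq_of_lt (by omega : L - a % L < L)]
    have : a % L + (L - a % L) = L := by omega
    rw [this, Nat.mod_self]

theorem mono_T {m : ℕ} {w nn T : ℕ → ℕ} (hnn : ∀ x, 1 ≤ nn x)
    (hT : ∀ k < m, T (k + 1) = T k + nn (w k)) : ∀ a b, a < b → b ≤ m → T a < T b := by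
  intro a b hab hb
  induction b with
  | zero => omega
  | succ b ih =>
    have h1 := hT b (by omega)
    have h2 := hnn (w b)
    rcases Nat.lt_or_ge a b with h | h
    · have := ih h (by omega); omega
    · have : a = b := by omega
      subst this; omega

theorem counters_of {A : Type} {p : Par} {w : ℕ → A} {tau : ℕ → ℕ → ℕ → ℕ}
    {C : ℕ → ℕ → ℕ → Prop} {m : ℕ} {u v s nn Tu Tv : ℕ → ℕ}
    (know_of_wid : ∀ {i a b L : ℕ}, p.wid i ≤ L → Ag w a b L → a ≡ b [MOD p.P i])
    (margin : ∀ {m n Λ P D : ℕ} {w s nn T : ℕ → ℕ}, m ≤ n → (∀ x, 1 ≤ nn x) →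
      (∀ k < m, T (k + 1) = T k + nn (w k)) → (∃ k < m, Λ ≤ nn (w k)) →
      (∀ k < m, Λ ≤ nn (w k) → T k ≡ s (w k) [MOD P]) →
      (∀ k < m, nn (w k) < Λ → n * Λ ≤ D) → ∀ {z : ℕ}, T 0 ≤ z → z < T m →
      (∀ k < m, Λ ≤ nn (w k) → ¬ Near P D z (s (w k)) ∧ ¬ Near P D z (s (w k) + nn (w k))) →
      ∃ k < m, Λ ≤ nn (w k) ∧ T k ≤ z ∧ z < T (k + 1) ∧ T k + D ≤ z ∧ z + D ≤ T (k + 1))
    (hc : Ctx p w tau C m u v s nn Tu Tv) (i st e K : ℕ) (hK : 0 < K)
    (baseView : ∀ k < m, ∀ j < nn (u k), v2 (Tu k + K + j) = v2 (s (u k) + K + j))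
    (hfar : ∀ z, p.P i ∣ z + K → FarB p m u s nn i (Rm p i) z)
    (hbig : ∃ k < m, Lam p i ≤ nn (u k))
    (hJ : ∀ k < m, ∀ b, p.len i ∣ b → tau i st b = e → b < Tu (k + 1) →
      b + p.wid i ≤ Tu (k + 1)) :
    (∀ k < m, ((∃ j < nn (v k), p.P i ∣ s (v k) + K + j) ∨
        (∃ j < nn (v k), p.len i ∣ s (v k) + j ∧ tau i st (s (v k) + j) = e)) →
      cnt p tau i st e (s (v k)) ≡ cnt p tau i st e (Tu 0) +
        ∑ k' ∈ Finset.range k, (cnt p tau i st e (s (v k') + nn (v k')) -
          cnt p tau i st e (s (v k'))) [MOD p.q]) ∧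
    cnt p tau i st e (Tu m) ≡ cnt p tau i st e (Tu 0) +
        ∑ k' ∈ Finset.range m, (cnt p tau i st e (s (v k') + nn (v k')) -
          cnt p tau i st e (s (v k'))) [MOD p.q] := by
  classical
  set N : ℕ → ℕ := cnt p tau i st e with hN
  have hok := hc.ok
  have hgood := hc.good
  have hmn := hc.hm
  have hq := hok.q_gt
  have hmono := mono_T hc.hnn hc.hTu
  -- windows of events do not cross junctions
  have hcross1 : ∀ k < m, ∀ j < nn (u k), Ev p tau i st e (Tu k + j) → j + p.wid i ≤ nn (u k) := by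
    intro k hk j hj hE
    have h1 := hJ k hk _ hE.1 hE.2 (by rw [hc.hTu k hk]; omega)
    rw [hc.hTu k hk] at h1; omega
  have hcross2 : ∀ k < m, ∀ j < nn (u k), Ev p tau i st e (s (u k) + j) →
      j + p.wid i ≤ nn (u k) := by
    intro k hk j hj hE
    obtain ⟨k', hk', e1, e2⟩ := hc.ref k hk
    have h3 := hcross1 k' hk' j (by rw [e1]; exact hj) (by rw [← e2]; exact hE)
    rw [e1] at h3; exact h3
  have hmodu : ∀ k < m, p.wid i ≤ nn (u k) → Tu k ≡ s (u k) [MOD p.P i] := fun k hk h =>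
    know_of_wid h (hc.occ k hk)
  have hAgsub : ∀ k < m, ∀ j L, j + L ≤ nn (u k) → Ag w (Tu k + j) (s (u k) + j) L := by
    intro k hk j L hL t ht
    have := hc.occ k hk (j + t) (by omega)
    rw [add_assoc, add_assoc]; exact this
  have halign : ∀ k < m, p.wid i ≤ nn (u k) → ∀ j, p.len i ∣ Tu k + j ↔ p.len i ∣ s (u k) + j := by
    intro k hk h j
    have h1 : Tu k + j ≡ s (u k) + j [MOD p.len i] :=
      ((hmodu k hk h).of_dvd (len_dvd_P hok i)).add_right j
    exact Nat.ModEq.dvd_iff h1 dvd_rfl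
  -- (a)
  have hEv : ∀ k < m, ∀ j < nn (u k), Ev p tau i st e (Tu k + j) ↔ Ev p tau i st e (s (u k) + j) := by
    intro k hk j hj
    constructor
    · intro hE
      have h1 := hcross1 k hk j hj hE
      have h2 : p.len i ∣ s (u k) + j := (halign k hk (by omega) j).1 hE.1
      refine ⟨h2, ?_⟩
      rw [← hgood.typ i _ _ st hE.1 h2 (hAgsub k hk j _ h1)]
      exact hE.2
    · intro hE
      have h1 := hcross2 k hk j hj hE
      have h2 : p.len i ∣ Tu k + j := (halign k hk (by omega) j).2 hE.1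
      refine ⟨h2, ?_⟩
      rw [hgood.typ i _ _ st h2 hE.1 (hAgsub k hk j _ h1)]
      exact hE.2
  have hnevj : ∀ k < m, ∀ j ≤ nn (u k),
      nev p tau i st e (Tu k) j = nev p tau i st e (s (u k)) j := by
    intro k hk j hj
    apply nev_congr
    intro t ht
    exact hEv k hk t (by omega)
  have hNadd : ∀ a j, N (a + j) = N a + nev p tau i st e a j := fun a j => cnt_add p tau i st e a j
  -- cancellation
  have hcancel : ∀ k < m, ∀ j ≤ nn (u k), N (Tu k + j) ≡ N (s (u k) + j) [MOD p.q] →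
      N (Tu k) ≡ N (s (u k)) [MOD p.q] := by
    intro k hk j hj h
    rw [hNadd, hNadd, hnevj k hk j hj] at h
    exact Nat.ModEq.add_right_cancel' _ h
  -- (b)
  have hXmod : ∀ k < m, (∃ j < nn (u k), p.P i ∣ s (u k) + K + j) →
      N (Tu k) ≡ N (s (u k)) [MOD p.q] ∧ p.wid i ≤ nn (u k) := by
    intro k hk hX
    obtain ⟨j0, hj0, hd⟩ := hX
    obtain ⟨k', hk', e1, e2⟩ := hc.ref k hk
    have hz : p.P i ∣ (s (u k) + j0) + K := by
      have : s (u k) + j0 + K = s (u k) + K + j0 := by omega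
      rw [this]; exact hd
    have hfz := hfar _ hz
    have hT0z : Tu 0 ≤ s (u k) + j0 := by
      rcases Nat.eq_zero_or_pos k' with h0 | h0
      · rw [e2, h0]; omega
      · have := hmono 0 k' h0 hk'.le
        omega
    have hTk' := hc.hTu k' hk'
    rw [e1] at hTk'
    have hzTm : s (u k) + j0 < Tu m := by
      rcases Nat.lt_or_ge (k' + 1) m with h0 | h0
      · have := hmono (k' + 1) m h0 le_rfl
        omega
      · have : m = k' + 1 := by omega
        rw [this]; omega
    obtain ⟨k1, hk1, hb1, hb2, hb3, hb4, hb5⟩ := margin (Λ := Lam p i) (P := p.P i) (D := Rm p i)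
      hmn hc.hnn hc.hTu hbig
      (fun k hk h => hmodu k hk ((wid_le_Lam hok i).trans h))
      (fun k hk h => by
        rcases Nat.eq_zero_or_pos i with h0 | h0
        · subst h0
          have := hc.hnn (u k)
          simp [Lam] at h
          omega
        · exact nLam_le_Rm hok (by omega)) hT0z hzTm hfz
    have hkk : k1 = k' := by
      rcases lt_trichotomy k1 k' with h | h | h
      · have h1 : Tu (k1 + 1) ≤ Tu k' := by
          rcases Nat.lt_or_ge (k1 + 1) k' with h2 | h2
          · exact (hmono _ _ h2 hk'.le).le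
          · have : k' = k1 + 1 := by omega
            rw [this]
        omega
      · exact h
      · have h1 : Tu (k' + 1) ≤ Tu k1 := by
          rcases Nat.lt_or_ge (k' + 1) k1 with h2 | h2
          · exact (hmono _ _ h2 hk1.le).le
          · have : k1 = k' + 1 := by omega
            rw [this]
        omega
    subst hkk
    have hlen : 2 * Rm p i ≤ nn (u k) := by omega
    have hnu := nu_pos hok i
    have hRm : 8 * p.nu i + 4 * p.wid i = Rm p i := rfl
    have hwid : p.wid i ≤ nn (u k) := by omega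
    refine ⟨?_, hwid⟩
    obtain ⟨j, hj, hdj⟩ := exists_mult hnu (s (u k))
    have hdj' : p.nu i ∣ Tu k + j := by
      have h1 : Tu k + j ≡ s (u k) + j [MOD p.nu i] :=
        ((hmodu k hk hwid).of_dvd (hok.nu_dvd i)).add_right j
      exact (Nat.ModEq.dvd_iff h1 dvd_rfl).2 hdj
    apply hcancel k hk j (by omega)
    exact hgood.window i _ _ st e hdj' hdj (hAgsub k hk j _ (by omega))
  -- (c)
  have hGmod : ∀ k < m, (∃ j < nn (u k), Ev p tau i st e (s (u k) + j)) →
      N (Tu k) ≡ N (s (u k)) [MOD p.q] ∧ p.wid i ≤ nn (u k) := by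
    intro k hk hE
    obtain ⟨j, hj, hE⟩ := hE
    have h1 := hcross2 k hk j hj hE
    have hE' := (hEv k hk j hj).2 hE
    refine ⟨?_, by omega⟩
    apply hcancel k hk j hj.le
    have h2 := hgood.label i _ _ st hE'.1 hE.1 (hAgsub k hk j _ h1)
    rw [hE'.2] at h2
    exact h2
  have hGone : ∀ k < m, ¬ (∃ j < nn (u k), p.P i ∣ s (u k) + K + j) →
      (∃ j < nn (u k), Ev p tau i st e (s (u k) + j)) →
      nev p tau i st e (s (u k)) (nn (u k)) = 1 := by
    intro k hk hX hE
    obtain ⟨j, hj, hE⟩ := hE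
    have key : ∀ j1 j2, j1 < j2 → j2 < nn (u k) → Ev p tau i st e (s (u k) + j1) →
        Ev p tau i st e (s (u k) + j2) → False := by
      intro j1 j2 h12 h2 hE1 hE2
      have h3 := hgood.sparse i _ _ st hE1.1 hE2.1 (by omega) (hE1.2.trans hE2.2.symm)
      obtain ⟨j', hj', hd⟩ := exists_mult (P_pos p i) (s (u k) + K + j1)
      exact hX ⟨j1 + j', by omega, by rw [← add_assoc]; exact hd⟩
    apply nev_one p tau i st e hj hE
    intro t' ht' hE'
    rcases lt_trichotomy t' j with h | h | h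
    · exact (key _ _ h hj hE' hE).elim
    · exact h
    · exact (key _ _ h ht' hE hE').elim
  -- choice of the constant
  obtain ⟨c, hcq, hcbad⟩ : ∃ c < p.q, ∀ k < m, (N (s (u k)) + c) % p.q ≠ p.q - 1 := by
    by_contra hcon
    push Not at hcon
    choose f hf using hcon
    have hinj : Set.InjOn (fun c : ℕ => if h : c < p.q then f c h else 0)
        (↑(Finset.range p.q) : Set ℕ) := by
      intro c1 h1 c2 h2 h12
      have h1' : c1 < p.q := by simpa using h1
      have h2' : c2 < p.q := by simpa using h2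
      simp only [h1', h2', dif_pos] at h12
      have g1 := (hf c1 h1').2
      have g2 := (hf c2 h2').2
      rw [← h12] at g2
      have g3 : N (s (u (f c1 h1'))) + c1 ≡ N (s (u (f c1 h1'))) + c2 [MOD p.q] := by
        show _ % _ = _ % _
        rw [g1, g2]
      have g4 := Nat.ModEq.add_left_cancel' _ g3
      exact Nat.ModEq.eq_of_lt_of_lt g4 h1' h2'
    have hmaps : ∀ c ∈ Finset.range p.q, (if h : c < p.q then f c h else 0) ∈ Finset.range m := by
      intro c hc'
      have h1' : c < p.q := by simpa using hc'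
      simp only [h1', dif_pos, Finset.mem_range]
      exact (hf c h1').1
    have := Finset.card_le_card_of_injOn _ hmaps hinj
    simp only [Finset.card_range] at this
    omega
  have hqpos : 0 < p.q := by omega
  -- the potentials
  set X : ℕ → Prop := fun x => Mk (p.e i) (s x + K) (s x + K + nn x) with hX
  have hXiff : ∀ x, X x ↔ ∃ j < nn x, p.P i ∣ s x + K + j := by
    intro x
    constructor
    · rintro ⟨z, h1, h2, h3⟩
      obtain ⟨j, rfl⟩ := Nat.exists_eq_add_of_le h1
      exact ⟨j, by omega, h3⟩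
    · rintro ⟨j, hj, hd⟩
      exact ⟨s x + K + j, by omega, by omega, hd⟩
  set G : ℕ → Prop := fun x => ¬ X x ∧ (∃ k < m, u k = x) ∧
    ∃ j < nn x, Ev p tau i st e (s x + j) with hG
  set χm : ℕ → ℕ := fun x => (N (s x) + c) % p.q with hχm
  set χp : ℕ → ℕ := fun x => (N (s x + nn x) + c) % p.q with hχp
  have hi : ∀ x, χm x < 2 ^ p.q ∧ χp x < 2 ^ p.q := fun x =>
    ⟨(Nat.mod_lt _ hqpos).trans Nat.lt_two_pow_self, (Nat.mod_lt _ hqpos).trans Nat.lt_two_pow_self⟩
  have hGlt : ∀ x, G x → χm x < χp x := by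
    rintro x ⟨h1, ⟨k, hk, rfl⟩, h3⟩
    have h4 := hGone k hk (fun h => h1 ((hXiff _).2 h)) h3
    have h5 := hcbad k hk
    have h6 := Nat.mod_lt (N (s (u k)) + c) hqpos
    show (N (s (u k)) + c) % p.q < (N (s (u k) + nn (u k)) + c) % p.q
    rw [hNadd, h4]
    have h7 : (N (s (u k)) + 1 + c) % p.q = (N (s (u k)) + c) % p.q + 1 := by
      have : N (s (u k)) + 1 + c = (N (s (u k)) + c) + 1 := by omega
      rw [this, Nat.add_mod, Nat.mod_eq_of_lt (a := (N (s (u k)) + c) % p.q + 1 % p.q)]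
      · rw [Nat.mod_eq_of_lt (a := 1)]
        omega
      · have : 1 % p.q ≤ 1 := Nat.mod_le _ _
        omega
    omega
  have hxg : ∀ k < m, (X (u k) ∨ G (u k)) → N (Tu k) ≡ N (s (u k)) [MOD p.q] ∧
      p.wid i ≤ nn (u k) := by
    intro k hk h
    rcases h with h | h
    · exact hXmod k hk ((hXiff _).1 h)
    · exact hGmod k hk h.2.2
  have hpath : Path (fun x => X x ∨ G x) χm χp ((N (Tu 0) + c) % p.q) ((N (Tu m) + c) % p.q)
      u m := by
    refine ⟨fun k => (N (Tu k) + c) % p.q, rfl, rfl, ?_⟩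
    intro k hk
    constructor
    · intro h
      have h1 := (hxg k hk h).1
      refine ⟨h1.add_right c, ?_⟩
      show (N (Tu (k + 1)) + c) % p.q = (N (s (u k) + nn (u k)) + c) % p.q
      rw [hc.hTu k hk, hNadd, hNadd, hnevj k hk _ le_rfl]
      exact (h1.add_right _).add_right c
    · intro h
      show (N (Tu (k + 1)) + c) % p.q = (N (Tu k) + c) % p.q
      rw [hc.hTu k hk, hNadd, hnevj k hk _ le_rfl, nev_zero, add_zero]
      intro t ht hE
      exact h (Or.inr ⟨fun hx => h (Or.inl hx), ⟨k, hk, rfl⟩, t, ht, hE⟩)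
  have hview : ∀ k < m, (Tu (k + 1) + K) + (s (u k) + K) = (Tu k + K) + (s (u k) + K + nn (u k)) ∧
      ∀ j, (s (u k) + K) + j < s (u k) + K + nn (u k) →
        v2 ((Tu k + K) + j) = v2 ((s (u k) + K) + j) := by
    intro k hk
    refine ⟨by rw [hc.hTu k hk]; omega, ?_⟩
    intro j hj
    exact baseView k hk j (by omega)
  have hres := lemVG (u := u) (v := v) (m := m) hc.HC
    (a := fun x => s x + K) (b := fun x => s x + K + nn x)
    (fun x => ⟨by omega, by have := hc.hnn x; omega⟩) (p.e i) p.q G χm χp hi hGlt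
    (fun k => Tu k + K) (by show 0 < Tu 0 + K; omega) hview
    (fun k hk h => by
      have h1 := hmodu k hk (hxg k hk (Or.inr h)).2
      exact h1.add_right K)
    _ _ hpath χm χp _ _ hpath
  obtain ⟨pot, hp0, hpm, hpot⟩ := hres
  -- on `v`
  set S : ℕ → ℕ := fun k => ∑ k' ∈ Finset.range k, (N (s (v k') + nn (v k')) - N (s (v k')))
    with hS
  have hind : ∀ k ≤ m, pot k ≡ N (Tu 0) + c + S k [MOD p.q] := by
    intro k
    induction k with
    | zero =>
      intro _
      rw [hp0]
      simp only [hS, Finset.range_zero, Finset.sum_empty, add_zero]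
      exact Nat.mod_modEq _ _
    | succ k ih =>
      intro hk
      have ih' := ih (by omega)
      obtain ⟨h1, h2⟩ := hpot k (by omega)
      have hSs : S (k + 1) = S k + (N (s (v k) + nn (v k)) - N (s (v k))) := by
        simp only [hS, Finset.sum_range_succ]
      by_cases hXG : X (v k) ∨ G (v k)
      · obtain ⟨h3, h4⟩ := h1 hXG
        rw [h4, hSs, hNadd, Nat.add_sub_cancel_left]
        show (N (s (v k) + nn (v k)) + c) % p.q ≡ _ [MOD p.q]
        rw [hNadd]
        rw [h3] at ih'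
        have h5 : N (s (v k)) + c ≡ N (Tu 0) + c + S k [MOD p.q] :=
          (Nat.mod_modEq _ _).symm.trans ih'
        have h6 := h5.add_right (nev p tau i st e (s (v k)) (nn (v k)))
        refine (Nat.mod_modEq _ _).trans ?_
        have e1 : N (s (v k)) + nev p tau i st e (s (v k)) (nn (v k)) + c =
          N (s (v k)) + c + nev p tau i st e (s (v k)) (nn (v k)) := by omega
        rw [e1, ← add_assoc]
        exact h6
      · rw [h2 hXG, hSs]
        have h3 : nev p tau i st e (s (v k)) (nn (v k)) = 0 := by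
          apply nev_zero
          intro t ht hE
          exact hXG (Or.inr ⟨fun hx => hXG (Or.inl hx), hc.hvu k (by omega), t, ht, hE⟩)
        rw [hNadd, h3]
        simpa using ih'
  constructor
  · intro k hk h
    have hXG : X (v k) ∨ G (v k) := by
      by_cases hx : X (v k)
      · exact Or.inl hx
      · rcases h with h | h
        · exact (hx ((hXiff _).2 h)).elim
        · exact Or.inr ⟨hx, hc.hvu k hk, h⟩
    have h1 := ((hpot k hk).1 hXG).1
    have h2 := hind k hk.le
    rw [h1] at h2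
    have h3 : N (s (v k)) + c ≡ N (Tu 0) + c + S k [MOD p.q] := (Nat.mod_modEq _ _).symm.trans h2
    have e1 : N (Tu 0) + c + S k = (N (Tu 0) + S k) + c := by omega
    rw [e1] at h3
    exact Nat.ModEq.add_right_cancel' _ h3
  · have h2 := hind m le_rfl
    rw [hpm] at h2
    have h3 : N (Tu m) + c ≡ N (Tu 0) + c + S m [MOD p.q] := (Nat.mod_modEq _ _).symm.trans h2
    have e1 : N (Tu 0) + c + S m = (N (Tu 0) + S m) + c := by omega
    rw [e1] at h3
    exact Nat.ModEq.add_right_cancel' _ h3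

end Pool.Agent.Helper76.SG
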